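import Pool.Agent.helper45.SGC.Spec

/-!
# Row SMT of project SGC (MP_069684_lc): symmetrisation of a circuit
-/

set_option autoImplicit false

namespace Pool.Agent.SGC

open Finset Pool.Agent.helper38.Neg Pool.Agent.helper55.NT

/-- the gates -/
abbrev SMT_W {n : ℕ} (V : Submodule (ZMod 2) (Sg (tv n))) (s : ℕ) : Type := Option (Fin n ⊕ (V × Fin s))

/-- the gate which computes the wire `w` on the input `x ∘ fl γ` -/
noncomputable def SMT_wr {n s : ℕ} {V : Submodule (ZMod 2) (Sg (tv n))} (γ : V) (w : Fin (n + s)) : SMT_W V s :=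
  some (Sum.map (fl (γ : Sg (tv n))) (fun j => (γ, j)) (finSumFinEquiv.symm w))

/-- the rank -/
def SMT_rk {n s : ℕ} {V : Submodule (ZMod 2) (Sg (tv n))} : SMT_W V s → ℕ
  | none => s + 1
  | some (Sum.inl _) => 0
  | some (Sum.inr (_, j)) => (j : ℕ) + 1

theorem SMT_wr_castAdd {n s : ℕ} {V : Submodule (ZMod 2) (Sg (tv n))} (γ : V) (i : Fin n) :
    SMT_wr (s := s) γ (Fin.castAdd s i) = some (Sum.inl (fl (γ : Sg (tv n)) i)) := by
  simp [SMT_wr]

theorem SMT_wr_natAdd {n s : ℕ} {V : Submodule (ZMod 2) (Sg (tv n))} (γ : V) (j : Fin s) :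
    SMT_wr (n := n) γ (Fin.natAdd n j) = some (Sum.inr (γ, j)) := by
  simp [SMT_wr]

theorem SMT_rk_wr {n s : ℕ} {V : Submodule (ZMod 2) (Sg (tv n))} (γ : V) (w : Fin (n + s)) (j : ℕ)
    (h : (w : ℕ) < n + j) : SMT_rk (SMT_wr γ w) < j + 1 := by
  induction w using Fin.addCases with
  | left i => rw [SMT_wr_castAdd]; exact Nat.succ_pos _
  | right i =>
    rw [SMT_wr_natAdd]
    simp only [Fin.val_natAdd] at h
    show (i : ℕ) + 1 < j + 1
    omega

open Classical in
/-- the symmetric circuit -/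
noncomputable def SMT_C {n s : ℕ} (V : Submodule (ZMod 2) (Sg (tv n))) [Fintype V] (a b : Fin s → Fin (n + s))
    (F : Fin s → Bool → Bool → Bool) (o : Fin (n + s)) : SCirc n (SMT_W V s) where
  lab g := match g with
    | none => none
    | some (Sum.inl p) => some p
    | some (Sum.inr _) => none
  kids g := match g with
    | none => univ.image fun γ : V => SMT_wr γ o
    | some (Sum.inl _) => ∅
    | some (Sum.inr (γ, j)) =>
      if (a j : ℕ) < n + j ∧ (b j : ℕ) < n + j then {SMT_wr γ (a j), SMT_wr γ (b j)} else ∅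
  fn g := match g with
    | none => fun m => decide (1 ≤ m)
    | some (Sum.inl _) => fun _ => false
    | some (Sum.inr (_, j)) =>
      if (a j : ℕ) < n + j ∧ (b j : ℕ) < n + j then
        (if a j = b j then fun m => F j (decide (1 ≤ m)) (decide (1 ≤ m))
          else fun m => F j (decide (1 ≤ m)) (decide (2 ≤ m)))
      else fun _ => F j false false
  rank := SMT_rk
  acyc g h hh := by
    rcases g with - | (p | ⟨γ, j⟩)
    · simp only [mem_image, mem_univ, true_and] at hh
      obtain ⟨γ, rfl⟩ := hh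
      exact SMT_rk_wr γ o s o.2
    · simp at hh
    · by_cases hc : (a j : ℕ) < n + j ∧ (b j : ℕ) < n + j
      · simp only [if_pos hc, mem_insert, mem_singleton] at hh
        rcases hh with rfl | rfl
        · exact SMT_rk_wr γ _ j hc.1
        · exact SMT_rk_wr γ _ j hc.2
      · simp [if_neg hc] at hh
  out := none

/-- the automorphism as a map -/
noncomputable def SMT_tau {n s : ℕ} {V : Submodule (ZMod 2) (Sg (tv n))} (δ : V) : SMT_W V s → SMT_W V s
  | none => none
  | some (Sum.inl p) => some (Sum.inl (fl (δ : Sg (tv n)) p))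
  | some (Sum.inr (γ, j)) => some (Sum.inr (δ + γ, j))

theorem SMT_add_self {n : ℕ} {V : Submodule (ZMod 2) (Sg (tv n))} (δ γ : V) : δ + (δ + γ) = γ := by
  apply Subtype.ext
  funext i
  have h : ∀ u v : ZMod 2, u + (u + v) = v := by decide
  exact h _ _

theorem SMT_tau_inv (hFLA : FLA_stmt) {n s : ℕ} {V : Submodule (ZMod 2) (Sg (tv n))} (δ : V) :
    Function.Involutive (SMT_tau (s := s) δ) := by
  intro g
  rcases g with - | (p | ⟨γ, j⟩)
  · rfl
  · show some (Sum.inl (fl (δ : Sg (tv n)) (fl (δ : Sg (tv n)) p))) = _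
    rw [(hFLA n).2.2.1]
  · show some (Sum.inr (δ + (δ + γ), j)) = _
    rw [SMT_add_self]

theorem SMT_tau_wr (hFLA : FLA_stmt) {n s : ℕ} {V : Submodule (ZMod 2) (Sg (tv n))} (δ γ : V) (w : Fin (n + s)) :
    SMT_tau δ (SMT_wr γ w) = SMT_wr (δ + γ) w := by
  induction w using Fin.addCases with
  | left i =>
    rw [SMT_wr_castAdd, SMT_wr_castAdd]
    show some (Sum.inl (fl (δ : Sg (tv n)) (fl (γ : Sg (tv n)) i))) = some (Sum.inl (fl ((δ : Sg (tv n)) + (γ : Sg (tv n))) i))
    rw [(hFLA n).2.1]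
  | right i =>
    rw [SMT_wr_natAdd, SMT_wr_natAdd]
    rfl

theorem SMT_wr_inj (hFLA : FLA_stmt) {n s : ℕ} {V : Submodule (ZMod 2) (Sg (tv n))} (γ : V) :
    Function.Injective (SMT_wr (s := s) γ) := by
  intro w w' h
  have h1 := Option.some.inj h
  have hinj : Function.Injective (fl (γ : Sg (tv n))) := by
    intro p q hpq
    rw [← (hFLA n).2.2.1 (γ : Sg (tv n)) p, hpq, (hFLA n).2.2.1]
  have h2 : Function.Injective (Sum.map (fl (γ : Sg (tv n))) (fun j : Fin s => (γ, j))) :=
    Sum.map_injective.2 ⟨hinj, fun j j' hj => (Prod.mk.inj hj).2⟩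
  exact finSumFinEquiv.symm.injective (h2 h1)

/-- the automorphism -/
noncomputable def SMT_pi (hFLA : FLA_stmt) {n s : ℕ} {V : Submodule (ZMod 2) (Sg (tv n))} (δ : V) :
    Equiv.Perm (SMT_W V s) := (SMT_tau_inv hFLA δ).toPerm

theorem SMT_ext (hFLA : FLA_stmt) {n s : ℕ} (V : Submodule (ZMod 2) (Sg (tv n))) [Fintype V] (a b : Fin s → Fin (n + s))
    (F : Fin s → Bool → Bool → Bool) (o : Fin (n + s)) (δ : V) :
    Ext (SMT_C V a b F o) (fl (δ : Sg (tv n))) (SMT_pi hFLA δ) := by
  refine ⟨?_, ?_, ?_, rfl⟩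
  · intro g
    rcases g with - | (p | ⟨γ, j⟩) <;> rfl
  · intro g
    rcases g with - | (p | ⟨γ, j⟩)
    · ext h
      simp only [SMT_C, SMT_pi, Function.Involutive.coe_toPerm, mem_map_equiv, mem_image, mem_univ, true_and, SMT_tau,
        Function.Involutive.toPerm_symm]
      constructor
      · rintro ⟨γ, rfl⟩
        exact ⟨δ + γ, (SMT_tau_wr hFLA δ γ o).symm⟩
      · rintro ⟨γ, hγ⟩
        refine ⟨δ + γ, ?_⟩
        rw [← SMT_tau_wr hFLA δ γ o, hγ]
        exact SMT_tau_inv hFLA δ h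
    · rfl
    · show (if (a j : ℕ) < n + j ∧ (b j : ℕ) < n + j then _ else ∅) = Finset.map _ (if (a j : ℕ) < n + j ∧ (b j : ℕ) < n + j then _ else ∅)
      split_ifs with hc
      · rw [map_insert, map_singleton]
        show _ = ({SMT_tau δ (SMT_wr γ (a j)), SMT_tau δ (SMT_wr γ (b j))} : Finset (SMT_W V s))
        rw [SMT_tau_wr hFLA, SMT_tau_wr hFLA]
      · rfl
  · intro g
    rcases g with - | (p | ⟨γ, j⟩) <;> rfl

theorem SMT_val (hFLA : FLA_stmt) {n s : ℕ} (V : Submodule (ZMod 2) (Sg (tv n))) [Fintype V] (C : Circuit n s)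
    (a b : Fin s → Fin (n + s)) (F : Fin s → Bool → Bool → Bool) (o : Fin (n + s))
    (h1 : ∀ j, ((a j : ℕ) < n + j ∧ (b j : ℕ) < n + j) ∨ ∃ d, F j = fun _ _ => d) (h2 : ∀ j p q, F j p q = F j q p)
    (h3 : ∀ x, (∀ i : Fin n, C.val x (Fin.castAdd s i) = x i) ∧
      ∀ j : Fin s, C.val x (Fin.natAdd n j) = F j (C.val x (a j)) (C.val x (b j))) (x : Fin n → Bool) (γ : V) :
    ∀ (m : ℕ) (w : Fin (n + s)), (w : ℕ) = m → (SMT_C V a b F o).val x (SMT_wr γ w) = C.val (x ∘ fl (γ : Sg (tv n))) w := by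
  intro m
  induction m using Nat.strong_induction_on with
  | _ m ih =>
  intro w hw
  induction w using Fin.addCases with
  | left i =>
    rw [(h3 _).1, SMT_wr_castAdd]
    exact SCirc.val_some _ _ _ (fl (γ : Sg (tv n)) i) rfl
  | right j =>
    rw [(h3 _).2, SMT_wr_natAdd, SCirc.val_none _ _ _ rfl]
    simp only [Fin.val_natAdd] at hw
    by_cases hc : (a j : ℕ) < n + j ∧ (b j : ℕ) < n + j
    · have ea := ih (a j) (by omega) (a j) rfl
      have eb := ih (b j) (by omega) (b j) rfl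
      have hk : (SMT_C V a b F o).kids (some (Sum.inr (γ, j))) = {SMT_wr γ (a j), SMT_wr γ (b j)} := by
        show (if (a j : ℕ) < n + j ∧ (b j : ℕ) < n + j then _ else ∅) = _
        rw [if_pos hc]
      rw [← ea, ← eb, hk]
      by_cases hab : a j = b j
      · have hf : (SMT_C V a b F o).fn (some (Sum.inr (γ, j))) = fun m => F j (decide (1 ≤ m)) (decide (1 ≤ m)) := by
          show (if (a j : ℕ) < n + j ∧ (b j : ℕ) < n + j then _ else _) = _
          rw [if_pos hc, if_pos hab]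
        rw [hf, ← hab, insert_eq_of_mem (mem_singleton_self _), filter_singleton]
        cases (SMT_C V a b F o).val x (SMT_wr γ (a j)) <;> simp
      · have hf : (SMT_C V a b F o).fn (some (Sum.inr (γ, j))) = fun m => F j (decide (1 ≤ m)) (decide (2 ≤ m)) := by
          show (if (a j : ℕ) < n + j ∧ (b j : ℕ) < n + j then _ else _) = _
          rw [if_pos hc, if_neg hab]
        have hne : SMT_wr γ (a j) ≠ SMT_wr γ (b j) := fun h => hab (SMT_wr_inj hFLA γ h)
        rw [hf, filter_insert, filter_singleton]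
        cases hva : (SMT_C V a b F o).val x (SMT_wr γ (a j)) <;> cases hvb : (SMT_C V a b F o).val x (SMT_wr γ (b j)) <;>
          simp [hne, h2 j false true]
    · obtain ⟨d, hd⟩ := (h1 j).resolve_left hc
      have hf : (SMT_C V a b F o).fn (some (Sum.inr (γ, j))) = fun _ => F j false false := by
        show (if (a j : ℕ) < n + j ∧ (b j : ℕ) < n + j then _ else _) = _
        rw [if_neg hc]
      rw [hf, hd]

theorem SMT (hFLA : FLA_stmt) (hDSC : DSC_stmt) (hTRN : TRN_stmt) : SMT_stmt := by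
  classical
  intro n s V C o f hC hV
  obtain ⟨a, b, F, h1, h2, h3⟩ := hDSC n s C
  have : Fintype V := Fintype.ofFinite _
  have hsym : Symm V (SMT_C V a b F o) := fun δ hδ => ⟨SMT_pi hFLA ⟨δ, hδ⟩, SMT_ext hFLA V a b F o ⟨δ, hδ⟩⟩
  obtain ⟨C', hC', hval⟩ := hTRN n (SMT_W V s) V (SMT_C V a b F o) hsym
  refine ⟨Fintype.card (SMT_W V s), ?_, C', hC', ?_⟩
  · rw [Nat.card_eq_fintype_card]
    simp only [SMT_W, Fintype.card_option, Fintype.card_sum, Fintype.card_fin, Fintype.card_prod]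
    exact le_rfl
  · intro x
    rw [hval x]
    have hout : (SMT_C V a b F o).val x (SMT_C V a b F o).out = decide (1 ≤
        (((SMT_C V a b F o).kids none).filter fun h => (SMT_C V a b F o).val x h = true).card) :=
      SCirc.val_none _ _ _ rfl
    rw [hout, decide_eq_true_iff, Nat.one_le_iff_ne_zero, ← Nat.pos_iff_ne_zero, card_pos]
    constructor
    · rintro ⟨g, hg⟩
      rw [mem_filter] at hg
      obtain ⟨hg1, hg2⟩ := hg
      have hg3 : g ∈ univ.image fun γ : V => SMT_wr γ o := hg1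
      rw [mem_image] at hg3
      obtain ⟨γ, -, rfl⟩ := hg3
      rw [SMT_val hFLA V C a b F o h1 h2 h3 x γ o o rfl, hC] at hg2
      exact (hV γ γ.2 x).1 hg2
    · intro hf
      refine ⟨SMT_wr (0 : V) o, ?_⟩
      rw [mem_filter]
      refine ⟨?_, ?_⟩
      · show SMT_wr (0 : V) o ∈ univ.image fun γ : V => SMT_wr γ o
        exact mem_image_of_mem _ (mem_univ _)
      · rw [SMT_val hFLA V C a b F o h1 h2 h3 x 0 o o rfl, hC]
        exact (hV _ (0 : V).2 x).2 hf

end Pool.Agent.SGC
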